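import Pool.Agent.E8helper53.FM.Fin
import Pool.Agent.E8helper92.FS.Uni

/-!
# Limits of minimal subshifts whose minimal subsets are not met by few words
-/

set_option autoImplicit false

namespace Pool.Agent.E8helper92.FM

open Pool.Agent.Helper894.FS Pool.Agent.E8helper53.FM

/-- the word `w` occurs in a point of `M` -/
def OccIn {A : Type} {n : ℕ} (w : Fin n → A) (M : Set (ℤ → A)) : Prop :=
  ∃ y ∈ M, ∃ k : ℤ, ∀ i : Fin n, y (k + ((i : ℕ) : ℤ)) = w i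

/-- `W` meets all minimal subsets of `Y` in which all words of length `m` of `Y` occur -/
def Meets {A : Type} (m : ℕ) (Y : Set (ℤ → A)) {n : ℕ} (W : Finset (Fin n → A)) : Prop :=
  ∀ M ⊆ Y, MinSub M → SameBlocks m M Y → ∃ w ∈ W, OccIn w M

/-- the least size of such a set of words of length `n` -/
noncomputable def hit {A : Type} (m : ℕ) (Y : Set (ℤ → A)) (n : ℕ) : ℕ :=
  sInf {c | ∃ W : Finset (Fin n → A), Meets m Y W ∧ W.card = c}

section

variable {A : Type} [Finite A] {S : Set (ℤ → A)} {r κ : ℕ}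

theorem hit_spec (m : ℕ) (Y : Set (ℤ → A)) (n : ℕ) :
    ∃ W : Finset (Fin n → A), Meets m Y W ∧ W.card = hit m Y n := by
  classical
  have : Fintype A := Fintype.ofFinite A
  have hne : {c | ∃ W : Finset (Fin n → A), Meets m Y W ∧ W.card = c}.Nonempty := by
    refine ⟨_, Finset.univ, fun M _ hM _ => ?_, rfl⟩
    obtain ⟨x, hx⟩ := hM.1
    exact ⟨fun i => x (0 + ((i : ℕ) : ℤ)), Finset.mem_univ _, x, hx, 0, fun _ => rfl⟩
  exact Nat.sInf_mem hne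

theorem hit_le (m : ℕ) (Y : Set (ℤ → A)) (n : ℕ) (W : Finset (Fin n → A)) (hW : Meets m Y W) :
    hit m Y n ≤ W.card := Nat.sInf_le ⟨W, hW, rfl⟩

theorem hit_mono (m : ℕ) (Y : Set (ℤ → A)) : Monotone (hit m Y) := by
  classical
  intro n n' hnm
  obtain ⟨W, hW, hc⟩ := hit_spec m Y n'
  rw [← hc]
  refine (hit_le m Y n (W.image fun w i => w (Fin.castLE hnm i)) ?_).trans Finset.card_image_le
  intro M hM hMm hs
  obtain ⟨w, hw, x, hx, k, hk⟩ := hW M hM hMm hs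
  exact ⟨_, Finset.mem_image_of_mem _ hw, x, hx, k, fun i => hk (Fin.castLE hnm i)⟩

/-- the sequence for the numerical iteration -/
noncomputable def hseq (m : ℕ) (Y : Set (ℤ → A)) (n : ℕ) : ℕ := hit m Y n * n

theorem hseq_mono (m : ℕ) (Y : Set (ℤ → A)) : Monotone (hseq m Y) := by
  intro n n' hnm
  exact Nat.mul_le_mul (hit_mono m Y hnm) hnm

theorem hseq_log (m : ℕ) (Y : Set (ℤ → A))
    (h : ∀ ε : ℝ, 0 < ε → ∀ n₀ : ℕ, ∃ n ≥ n₀, ∃ W : Finset (Fin n → A), Meets m Y W ∧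
      Real.log W.card ≤ ε * Real.sqrt n) :
    ∀ ε : ℝ, 0 < ε → ∀ n₀ : ℕ, ∃ n ≥ n₀, Real.log (hseq m Y n) ≤ ε * Real.sqrt n := by
  intro ε hε n₀
  have hlog : ∀ᶠ n : ℕ in Filter.atTop, Real.log n ≤ ε / 2 * Real.sqrt n := by
    have h1 := (isLittleO_log_rpow_atTop (by norm_num : (0 : ℝ) < 1 / 2)).bound (half_pos hε)
    have h2 := (tendsto_natCast_atTop_atTop (R := ℝ)).eventually h1
    filter_upwards [h2, Filter.eventually_ge_atTop 1] with n hn hn1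
    have h3 : Real.log n ≤ ‖Real.log (n : ℝ)‖ := le_abs_self _
    refine h3.trans (hn.trans (le_of_eq ?_))
    rw [Real.sqrt_eq_rpow, Real.norm_of_nonneg (Real.rpow_nonneg (Nat.cast_nonneg n) _)]
  obtain ⟨n₁, hn₁⟩ := Filter.eventually_atTop.1 hlog
  obtain ⟨n, hn, W, hW, hWl⟩ := h (ε / 2) (by linarith) (n₀ + n₁ + 1)
  refine ⟨n, by omega, ?_⟩
  have ht : hit m Y n ≤ W.card := hit_le m Y n W hW
  have hs0 := Real.sqrt_nonneg (n : ℝ)
  rcases Nat.eq_zero_or_pos (hit m Y n) with h0 | h0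
  · rw [hseq, h0, zero_mul, Nat.cast_zero, Real.log_zero]
    positivity
  · have hnpos : (0 : ℝ) < n := by
      have : 0 < n := by omega
      exact_mod_cast this
    have h00 : (0 : ℝ) < hit m Y n := by exact_mod_cast h0
    rw [hseq, Nat.cast_mul, Real.log_mul h00.ne' hnpos.ne']
    have h5 : Real.log (hit m Y n) ≤ Real.log W.card :=
      Real.log_le_log h00 (by exact_mod_cast ht)
    have h6 := hn₁ n (by omega)
    linarith

/-- A faithful line action of the free group on a set all of whose proper closed invariant subsets have kernels. -/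
theorem few (D : LineAct A S r κ) (hSc : Cl S) (hSi : Pool.Agent.E8helper53.FM.Inv S) {Y : Set (ℤ → A)} (hYS : Y ⊆ S)
    (hYc : Cl Y) (hYi : Pool.Agent.E8helper53.FM.Inv Y) (hYf : ∀ g : F2, g ≠ 1 → ∃ x ∈ Y, D.Q x g 0 ≠ 0)
    (hprop : ∀ Z ⊆ Y, Cl Z → Pool.Agent.E8helper53.FM.Inv Z → Z ≠ Y → ∃ g : F2, g ≠ 1 ∧ D.Triv g Z) (m : ℕ) :
    ∃ ε : ℝ, 0 < ε ∧ ∃ n₀ : ℕ, ∀ n ≥ n₀, ∀ W : Finset (Fin n → A), Meets m Y W →
      ε * Real.sqrt n < Real.log W.card := by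
  classical
  by_contra hcon
  push Not at hcon
  have : Fintype A := Fintype.ofFinite A
  obtain ⟨g', hg', hgt⟩ := exists_triv D hprop hYc hYi (Finset.univ : Finset (Fin m → A))
  obtain ⟨C, hC⟩ : ∃ C, C = g'.norm + 4 := ⟨_, rfl⟩
  obtain ⟨l₀, hl₀⟩ := core r (1 / 96) (by norm_num)
  obtain ⟨l, α, ⟨hα, hlaw⟩, hlt⟩ := JG4.iterate_law (hseq m Y) (hseq_mono m Y)
    (hseq_log m Y hcon) (fun l α => 0 ≤ α ∧ HasLaw (univAct r) l α)
    (fun l α hα hl => ⟨by positivity, JB.law_step _ JA.twist l α hα hl.2⟩) l₀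
    ⟨by norm_num, hl₀⟩ (3 * r) (3 * C * r + κ)
  obtain ⟨R₁, hR⟩ : ∃ R₁, R₁ = (2 * l + 3 * C) * r := ⟨_, rfl⟩
  obtain ⟨Q, hQ⟩ : ∃ Q, Q = l * (3 * r) + (3 * C * r + κ) := ⟨_, rfl⟩
  have hQR : Q = R₁ + l * r + κ := by rw [hQ, hR]; ring
  rw [← hQ] at hlt
  obtain ⟨W, hW, hWc⟩ := hit_spec m Y (2 * Q + 1)
  have hN : ((W.card * (2 * R₁ + 1) : ℕ) : ℝ) * α < 1 := by
    refine lt_of_le_of_lt (mul_le_mul_of_nonneg_right ?_ hα) hlt
    have h1 : W.card * (2 * R₁ + 1) ≤ hseq m Y (2 * Q + 1) := by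
      rw [hWc, hseq]
      refine Nat.mul_le_mul_left _ ?_
      have : R₁ ≤ Q := by rw [hQR]; omega
      omega
    exact_mod_cast h1
  obtain ⟨x₀, hx₀, -⟩ := hYf (FreeGroup.of true) (FreeGroup.of_ne_one _)
  have hrep : ∀ w : Fin (2 * Q + 1) → A, ∃ y : Y, OccIn w Y →
      ∀ i : Fin (2 * Q + 1), y.1 (-(Q : ℤ) + ((i : ℕ) : ℤ)) = w i := by
    intro w
    by_cases h : OccIn w Y
    · obtain ⟨x, hx, k, hk⟩ := h
      refine ⟨⟨sh (k + Q) x, hYi _ x hx⟩, fun _ i => ?_⟩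
      rw [← hk i]
      show x (-(Q : ℤ) + ((i : ℕ) : ℤ) + (k + Q)) = x (k + ((i : ℕ) : ℤ))
      congr 1
      ring
    · exact ⟨⟨x₀, hx₀⟩, fun h' => absurd h' h⟩
  choose y hy using hrep
  obtain ⟨g, hg1, hgl, hfix⟩ := Pool.Agent.E8helper92.FS.exists_fix_lines r W
    (fun w => (⟨D.Q (y w).1, D.disp _ (hYS (y w).2)⟩ : LA r)) l α hα hlaw R₁ hN
  -- `g` fixes the points near the occurrences of the words of `W`
  have near : ∀ w ∈ W, ∀ x ∈ Y, ∀ k : ℤ, (∀ i : Fin (2 * Q + 1), x (k + ((i : ℕ) : ℤ)) = w i) →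
      ∀ q : ℤ, |q - (k + Q)| ≤ (R₁ : ℤ) → D.Q x g q = q := by
    intro w hw x hx k hat q hq
    obtain ⟨p, hp⟩ : ∃ p, p = q - (k + Q) := ⟨_, rfl⟩
    rw [← hp] at hq
    have h1 : D.Q (sh (k + Q) x) g p = D.Q (y w).1 g p := by
      apply D.locn hSi g p (hSi _ x (hYS hx)) (hYS (y w).2)
      intro i hi
      have h2 : |i| ≤ (Q : ℤ) := by
        have h3 : (g.norm : ℤ) * r ≤ l * r :=
          mul_le_mul_of_nonneg_right (by exact_mod_cast hgl) (Int.natCast_nonneg r)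
        have h4 : (Q : ℤ) = R₁ + l * r + κ := by rw [hQR]; push_cast; ring
        rw [h4]
        linarith
      rw [abs_le] at h2
      have hj : (i + Q).toNat < 2 * Q + 1 := by omega
      have h7 : (((i + Q).toNat : ℕ) : ℤ) = i + Q := by omega
      have h8 := hy w ⟨x, hx, k, hat⟩ ⟨(i + Q).toNat, hj⟩
      have h9 := hat ⟨(i + Q).toNat, hj⟩
      simp only [h7] at h8 h9
      have e1 : -(Q : ℤ) + (i + Q) = i := by ring
      rw [e1] at h8
      show x (i + (k + Q)) = (y w).1 i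
      rw [h8, ← h9]
      congr 1
      ring
    have h2 : D.Q (y w).1 g p = p := hfix w hw p hq
    rw [h2, D.equi x (hYS hx)] at h1
    have e : p + (k + (Q : ℤ)) = q := by rw [hp]; ring
    rw [e] at h1
    linarith
  -- the commutator
  obtain ⟨p, q, hpq⟩ := JA.twist g g' hg1 hg'
  obtain ⟨s, hs⟩ : ∃ s, s = FreeGroup.mk [p, q] * g' * (FreeGroup.mk [p, q])⁻¹ := ⟨_, rfl⟩
  rw [← hs] at hpq
  obtain ⟨h, hh⟩ : ∃ h, h = g * s * g⁻¹ * s⁻¹ := ⟨_, rfl⟩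
  rw [← hh] at hpq
  have hsn : s.norm ≤ C := by
    have h1 : (FreeGroup.mk [p, q]).norm ≤ 2 := FreeGroup.norm_mk_le
    have h2 := FreeGroup.norm_mul_le (FreeGroup.mk [p, q] * g') (FreeGroup.mk [p, q])⁻¹
    have h3 := FreeGroup.norm_mul_le (FreeGroup.mk [p, q]) g'
    rw [FreeGroup.norm_inv_eq] at h2
    rw [hs, hC]
    omega
  have hhn : h.norm ≤ 2 * l + 2 * C := by
    have h2 := FreeGroup.norm_mul_le (g * s * g⁻¹) s⁻¹
    have h3 := FreeGroup.norm_mul_le (g * s) g⁻¹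
    have h4 := FreeGroup.norm_mul_le g s
    rw [FreeGroup.norm_inv_eq] at h2 h3
    rw [hh]
    omega
  have hbar : ∀ w ∈ W, ∀ x ∈ Y, ∀ k : ℤ, (∀ i : Fin (2 * Q + 1), x (k + ((i : ℕ) : ℤ)) = w i) →
      Bar (D.Q x) h (k + Q) := by
    intro w hw x hx k hat
    obtain ⟨c, hc⟩ : ∃ c, c = k + (Q : ℤ) := ⟨_, rfl⟩
    have near' := near w hw x hx k hat
    rw [← hc] at near' ⊢
    have hR' : (R₁ : ℤ) = (2 * l + 2 * C) * r + C * r := by rw [hR]; push_cast; ring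
    have hCr : (0 : ℤ) ≤ (C : ℤ) * r := by positivity
    have h0r : (0 : ℤ) ≤ (2 * (l : ℤ) + 2 * C) * r := by positivity
    have hfixh : ∀ z : ℤ, |z - c| ≤ (2 * (l : ℤ) + 2 * C) * r → D.Q x h z = z := by
      intro z hz
      have h1 := D.bd x (hYS hx) s⁻¹ z
      rw [FreeGroup.norm_inv_eq] at h1
      have h2 : (s.norm : ℤ) * r ≤ C * r :=
        mul_le_mul_of_nonneg_right (by exact_mod_cast hsn) (Int.natCast_nonneg r)
      have h3 : D.Q x g (D.Q x s⁻¹ z) = D.Q x s⁻¹ z := by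
        apply near'
        have h4 : |D.Q x s⁻¹ z - c| ≤ |D.Q x s⁻¹ z - z| + |z - c| := abs_sub_le _ _ _
        rw [hR']
        linarith
      have h4 : D.Q x g z = z := near' z (by rw [hR']; linarith)
      have h5 : D.Q x g⁻¹ (D.Q x s⁻¹ z) = D.Q x s⁻¹ z := by
        rw [map_inv (D.Q x) g, Equiv.Perm.inv_eq_iff_eq]
        exact h3.symm
      rw [hh, map_mul, map_mul, map_mul, Equiv.Perm.mul_apply, Equiv.Perm.mul_apply,
        Equiv.Perm.mul_apply, h5, ← Equiv.Perm.mul_apply (D.Q x s), ← map_mul, mul_inv_cancel,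
        map_one, Equiv.Perm.one_apply, h4]
    have hd : ∀ z : ℤ, |D.Q x h z - z| ≤ (2 * (l : ℤ) + 2 * C) * r := by
      intro z
      refine (D.bd x (hYS hx) h z).trans ?_
      exact mul_le_mul_of_nonneg_right (by exact_mod_cast hhn) (Int.natCast_nonneg r)
    refine ⟨hfixh c (by rw [sub_self, abs_zero]; exact h0r), fun z hz => ?_, fun z hz => ?_⟩
    · by_cases hzc : |z - c| ≤ (2 * (l : ℤ) + 2 * C) * r
      · rw [hfixh z hzc]
        exact hz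
      · push Not at hzc
        rw [abs_of_neg (by linarith)] at hzc
        have h1 := (abs_le.1 (hd z)).2
        linarith
    · by_cases hzc : |z - c| ≤ (2 * (l : ℤ) + 2 * C) * r
      · rw [hfixh z hzc]
        exact hz
      · push Not at hzc
        rw [abs_of_pos (by linarith)] at hzc
        have h1 := (abs_le.1 (hd z)).1
        linarith
  -- a minimal subset without barriers
  have hCcl : Cl {x | x ∈ Y ∧ ∀ n : ℤ, ¬ Bar (D.Q x) h n} := by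
    intro x hx
    have hxY : x ∈ Y := hYc x fun R => by
      obtain ⟨y, hy, h⟩ := hx R
      exact ⟨y, hy.1, h⟩
    refine ⟨hxY, fun n hn => ?_⟩
    obtain ⟨y, hy, h2⟩ := hx (n.natAbs + (2 * (h.norm * r) + κ))
    refine hy.2 n (D.bar_loc hSi h n (hYS hxY) (hYS hy.1) (fun i hi => (h2 i ?_).symm) hn)
    push_cast
    exact hi
  have hCinv : Pool.Agent.E8helper53.FM.Inv {x | x ∈ Y ∧ ∀ n : ℤ, ¬ Bar (D.Q x) h n} := by
    intro k x hx
    refine ⟨hYi k x hx.1, fun n hn => hx.2 (n + k) ?_⟩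
    rwa [D.bar_sh (hYS hx.1)] at hn
  obtain ⟨z, hz, hzn⟩ := exists_nobar D hSc hSi hYc hYi hYS hYf hpq
  obtain ⟨M, hM, hMm⟩ := exists_min hCcl hCinv ⟨z, hz, hzn⟩
  by_cases hsb : SameBlocks m M Y
  · obtain ⟨w, hw, x, hx, k, hk⟩ := hW M (fun x hx => (hM hx).1) hMm hsb
    exact (hM hx).2 (k + Q) (hbar w hw x (hM hx).1 k hk)
  · apply hsb
    intro x hx y hy k
    have hne : Avoid Y (fun i : Fin m => y (k + (i : ℕ))) ≠ Y := by
      intro he
      have : y ∈ Avoid Y (fun i : Fin m => y (k + (i : ℕ))) := by rw [he]; exact hy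
      exact this.2 k fun i => rfl
    have ht := hgt _ (Finset.mem_univ _) hne
    by_contra hcon
    push Not at hcon
    have hxA : x ∈ Avoid Y (fun i : Fin m => y (k + (i : ℕ))) := by
      refine ⟨(hM hx).1, fun j hj => ?_⟩
      obtain ⟨i, hi, hne⟩ := hcon j
      exact hne (hj ⟨i, hi⟩)
    apply (hM hx).2 0
    have h1 : D.Q x h = 1 := by
      rw [hh, hs]
      simp only [map_mul, map_inv, ht x hxA]
      group
    rw [Bar, h1]
    exact ⟨rfl, fun y hy => hy, fun y hy => hy⟩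

/-- the minimal set over which the free group acts faithfully -/
theorem main2 (D : LineAct A S r κ) (hSc : Cl S) (hSi : Pool.Agent.E8helper53.FM.Inv S)
    (hf : ∀ g : F2, g ≠ 1 → ∃ x ∈ S, D.Q x g 0 ≠ 0)
    (hB : ∃ G₀ : Finset F2, (∀ g ∈ G₀, g ≠ 1) ∧
      ∀ π : F2 →* Equiv.Perm ℤ, Disp r π → ∀ c : ℤ, ∃ g ∈ G₀, Bar π g c) :
    ∃ Y ⊆ S, IsLimit Y ∧ ∀ m : ℕ, ∃ ε : ℝ, 0 < ε ∧ ∃ n₀ : ℕ, ∀ n ≥ n₀,
      ∀ W : Finset (Fin n → A), Meets m Y W → ε * Real.sqrt n < Real.log W.card := by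
  classical
  obtain ⟨Y, hYS, hYc, hYi, hY, hmin⟩ := zornT hSc {p | ∃ g : F2, g ≠ 1 ∧ p = fun x => D.Q x g 0 ≠ 0}
    (by rintro p ⟨g, hg, rfl⟩; exact D.move_LC g) hSc hSi le_rfl
    (by rintro p ⟨g, hg, rfl⟩; exact hf g hg)
  have hfY : ∀ g : F2, g ≠ 1 → ∃ x ∈ Y, D.Q x g 0 ≠ 0 := fun g hg => hY _ ⟨g, hg, rfl⟩
  have hprop : ∀ Z ⊆ Y, Cl Z → Pool.Agent.E8helper53.FM.Inv Z → Z ≠ Y → ∃ g : F2, g ≠ 1 ∧ D.Triv g Z := by
    intro Z hZ hZc hZi hne
    by_contra hcon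
    push Not at hcon
    apply hne
    refine hmin Z hZ hZc hZi ?_
    rintro p ⟨g, hg, rfl⟩
    by_contra hc
    push Not at hc
    exact hcon g hg (D.triv_of hZi (hZ.trans hYS) g hc)
  have hnb : ∀ g : F2, g ≠ 1 → ∃ x ∈ Y, ∀ n : ℤ, ¬ Bar (D.Q x) g n := fun g hg =>
    exists_nobar D hSc hSi hYc hYi hYS hfY hg
  have hfew := few D hSc hSi hYS hYc hYi hfY hprop
  refine ⟨Y, hYS, ⟨hYc, hYi, ?_, ?_⟩, hfew⟩
  · obtain ⟨G₀, hG1, hG2⟩ := hB
    obtain ⟨x, hx, -⟩ := hfY (FreeGroup.of true) (FreeGroup.of_ne_one _)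
    obtain ⟨g, hg, hb⟩ := hG2 (D.Q x) (D.disp x (hYS hx)) 0
    obtain ⟨z, hz, hzn⟩ := hnb g (hG1 g hg)
    refine ⟨{x | x ∈ Y ∧ ∀ n : ℤ, ¬ Bar (D.Q x) g n}, fun y hy => hy.1, ⟨z, hz, hzn⟩, ?_, ?_, ?_⟩
    · intro x hx
      have hxY : x ∈ Y := hYc x fun R => by
        obtain ⟨y, hy, h⟩ := hx R
        exact ⟨y, hy.1, h⟩
      refine ⟨hxY, fun n hn => ?_⟩
      obtain ⟨y, hy, h⟩ := hx (n.natAbs + (2 * (g.norm * r) + κ))
      refine hy.2 n (D.bar_loc hSi g n (hYS hxY) (hYS hy.1) (fun i hi => (h i ?_).symm) hn)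
      push_cast
      exact hi
    · intro k x hx
      refine ⟨hYi k x hx.1, fun n hn => hx.2 (n + k) ?_⟩
      rwa [D.bar_sh (hYS hx.1)] at hn
    · intro he
      have : x ∈ {x | x ∈ Y ∧ ∀ n : ℤ, ¬ Bar (D.Q x) g n} := by rw [he]; exact hx
      exact this.2 0 hb
  · intro n
    by_contra hcon
    push Not at hcon
    obtain ⟨ε, hε, n₀, hn₀⟩ := hfew n
    have h1 := hn₀ n₀ le_rfl ∅ (fun M hM hMm hs => absurd hs (hcon M hM hMm))
    rw [Finset.card_empty, Nat.cast_zero, Real.log_zero] at h1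
    have h2 : 0 ≤ ε * Real.sqrt n₀ := by positivity
    linarith

theorem structure2 {F : Set (List A)} (hF : ∀ a : A, [a, a] ∈ F) (hfree : HasFree (FullSF F)) :
    ∃ Y ⊆ SF F, IsLimit Y ∧ ∀ m : ℕ, ∃ ε : ℝ, 0 < ε ∧ ∃ n₀ : ℕ, ∀ n ≥ n₀,
      ∀ W : Finset (Fin n → A), Meets m Y W → ε * Real.sqrt n < Real.log W.card := by
  obtain ⟨r, κ, D, hD⟩ := exists_act hF hfree
  have hS : Pool.Agent.E8helper53.FM.Inv (SF F) := fun k x hx => sh_mem k hx
  exact main2 D (cl_SF F) hS hD (JE.barriers r JK.card_pairs (fun ε hε => tail_final r ε hε))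

theorem no_free_meets {F : Set (List A)} (hF : ∀ a : A, [a, a] ∈ F)
    (h : ∀ ε : ℝ, 0 < ε → ∀ n₀ : ℕ, ∃ n ≥ n₀, ∃ W : Finset (Fin n → A),
      (∀ M ⊆ SF F, MinSub M → ∃ w ∈ W, OccIn w M) ∧ Real.log W.card ≤ ε * Real.sqrt n) :
    ¬ HasFree (FullSF F) ∧ ¬ HasFree (GSF F) := by
  have key : ¬ HasFree (FullSF F) := by
    intro hfree
    obtain ⟨Y, hYS, -, hY⟩ := structure2 hF hfree
    obtain ⟨ε, hε, n₀, hn₀⟩ := hY 0
    obtain ⟨n, hn, W, hW, hl⟩ := h ε hε n₀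
    have h1 := hn₀ n hn W (fun M hM hMm _ => hW M (hM.trans hYS) hMm)
    linarith
  refine ⟨key, ?_⟩
  rintro ⟨f, hf, hK⟩
  exact key ⟨f, hf, fun g => GSF_le_FullSF F hF (hK g)⟩

/-- the number of the sets of words of length `n` of minimal subsets -/
noncomputable def numTypes {A : Type} (F : Set (List A)) (n : ℕ) : ℕ :=
  Nat.card {L : Set (Fin n → A) // ∃ M ⊆ SF F, MinSub M ∧ L = {w | OccIn w M}}

theorem no_free_types {F : Set (List A)} (hF : ∀ a : A, [a, a] ∈ F)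
    (h : ∀ ε : ℝ, 0 < ε → ∀ n₀ : ℕ, ∃ n ≥ n₀, Real.log (numTypes F n) ≤ ε * Real.sqrt n) :
    ¬ HasFree (FullSF F) ∧ ¬ HasFree (GSF F) := by
  classical
  refine no_free_meets hF fun ε hε n₀ => ?_
  obtain ⟨n, hn, hl⟩ := h ε hε n₀
  have hfin : Finite {L : Set (Fin n → A) // ∃ M ⊆ SF F, MinSub M ∧ L = {w | OccIn w M}} :=
    Subtype.finite
  have : Fintype {L : Set (Fin n → A) // ∃ M ⊆ SF F, MinSub M ∧ L = {w | OccIn w M}} :=
    Fintype.ofFinite _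
  have hex : ∀ L : {L : Set (Fin n → A) // ∃ M ⊆ SF F, MinSub M ∧ L = {w | OccIn w M}},
      ∃ w : Fin n → A, w ∈ L.1 := by
    rintro ⟨L, M, hM, hMm, rfl⟩
    obtain ⟨x, hx⟩ := hMm.1
    exact ⟨fun i => x (0 + ((i : ℕ) : ℤ)), x, hx, 0, fun _ => rfl⟩
  choose w hw using hex
  refine ⟨n, hn, Finset.univ.image w, fun M hM hMm => ?_, ?_⟩
  · refine ⟨_, Finset.mem_image_of_mem _ (Finset.mem_univ ⟨{w | OccIn w M}, M, hM, hMm, rfl⟩), ?_⟩
    exact hw ⟨{w | OccIn w M}, M, hM, hMm, rfl⟩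
  · refine le_trans ?_ hl
    have hc : (Finset.univ.image w).card ≤ numTypes F n := by
      rw [numTypes, Nat.card_eq_fintype_card]
      exact Finset.card_image_le.trans (le_of_eq Finset.card_univ)
    rcases Nat.eq_zero_or_pos (Finset.univ.image w).card with h0 | h0
    · rw [h0, Nat.cast_zero, Real.log_zero]
      exact Real.log_natCast_nonneg _
    · exact Real.log_le_log (by exact_mod_cast h0) (by exact_mod_cast hc)

end

end Pool.Agent.E8helper92.FM
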