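import Pool.Agent.E8helper92.FM.Few

/-!
# Limits of minimal subshifts whose minimal subsets are not met by few words: one constant for all `m`
-/

set_option autoImplicit false

namespace Pool.Agent.E8helper92.FM

open Pool.Agent.Helper894.FS Pool.Agent.E8helper53.FM

section

variable {A : Type} [Finite A] {S : Set (ℤ → A)} {r κ : ℕ}

/-- The main step: a law and a set of words. -/
theorem few_core (D : LineAct A S r κ) (hSc : Cl S) (hSi : Pool.Agent.E8helper53.FM.Inv S) {Y : Set (ℤ → A)} (hYS : Y ⊆ S)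
    (hYc : Cl Y) (hYi : Pool.Agent.E8helper53.FM.Inv Y) (hYf : ∀ g : F2, g ≠ 1 → ∃ x ∈ Y, D.Q x g 0 ≠ 0)
    (hprop : ∀ Z ⊆ Y, Cl Z → Pool.Agent.E8helper53.FM.Inv Z → Z ≠ Y → ∃ g : F2, g ≠ 1 ∧ D.Triv g Z) (m : ℕ) :
    ∃ C₀ : ℕ, ∀ (l : ℕ) (α : ℝ), 0 ≤ α → HasLaw (univAct r) l α →
      1 ≤ ((hseq m Y (2 * (l * (3 * r) + C₀) + 1) : ℕ) : ℝ) * α := by
  classical
  have : Fintype A := Fintype.ofFinite A
  obtain ⟨g', hg', hgt⟩ := exists_triv D hprop hYc hYi (Finset.univ : Finset (Fin m → A))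
  obtain ⟨C, hC⟩ : ∃ C, C = g'.norm + 4 := ⟨_, rfl⟩
  refine ⟨3 * C * r + κ, fun l α hα hlaw => ?_⟩
  by_contra hlt
  push Not at hlt
  obtain ⟨R₁, hR⟩ : ∃ R₁, R₁ = (2 * l + 3 * C) * r := ⟨_, rfl⟩
  obtain ⟨Q, hQ⟩ : ∃ Q, Q = l * (3 * r) + (3 * C * r + κ) := ⟨_, rfl⟩
  have hQR : Q = R₁ + l * r + κ := by rw [hQ, hR]; ring
  rw [← hQ] at hlt
  obtain ⟨W, hW, hWc⟩ := hit_spec m Y (2 * Q + 1)
  have hN : ((W.card * (2 * R₁ + 1) : ℕ) : ℝ) * α < 1 := by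
    refine lt_of_le_of_lt (mul_le_mul_of_nonneg_right ?_ hα) hlt
    have h1 : W.card * (2 * R₁ + 1) ≤ hseq m Y (2 * Q + 1) := by
      rw [hWc, hseq]
      refine Nat.mul_le_mul_left _ ?_
      have : R₁ ≤ Q := by rw [hQR]; omega
      omega
    exact_mod_cast h1
  obtain ⟨x₀, hx₀, -⟩ := hYf (FreeGroup.of true) (FreeGroup.of_ne_one _)
  have hrep : ∀ w : Fin (2 * Q + 1) → A, ∃ y : Y, OccIn w Y →
      ∀ i : Fin (2 * Q + 1), y.1 (-(Q : ℤ) + ((i : ℕ) : ℤ)) = w i := by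
    intro w
    by_cases h : OccIn w Y
    · obtain ⟨x, hx, k, hk⟩ := h
      refine ⟨⟨sh (k + Q) x, hYi _ x hx⟩, fun _ i => ?_⟩
      rw [← hk i]
      show x (-(Q : ℤ) + ((i : ℕ) : ℤ) + (k + Q)) = x (k + ((i : ℕ) : ℤ))
      congr 1
      ring
    · exact ⟨⟨x₀, hx₀⟩, fun h' => absurd h' h⟩
  choose y hy using hrep
  obtain ⟨g, hg1, hgl, hfix⟩ := Pool.Agent.E8helper92.FS.exists_fix_lines r W
    (fun w => (⟨D.Q (y w).1, D.disp _ (hYS (y w).2)⟩ : LA r)) l α hα hlaw R₁ hN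
  -- `g` fixes the points near the occurrences of the words of `W`
  have near : ∀ w ∈ W, ∀ x ∈ Y, ∀ k : ℤ, (∀ i : Fin (2 * Q + 1), x (k + ((i : ℕ) : ℤ)) = w i) →
      ∀ q : ℤ, |q - (k + Q)| ≤ (R₁ : ℤ) → D.Q x g q = q := by
    intro w hw x hx k hat q hq
    obtain ⟨p, hp⟩ : ∃ p, p = q - (k + Q) := ⟨_, rfl⟩
    rw [← hp] at hq
    have h1 : D.Q (sh (k + Q) x) g p = D.Q (y w).1 g p := by
      apply D.locn hSi g p (hSi _ x (hYS hx)) (hYS (y w).2)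
      intro i hi
      have h2 : |i| ≤ (Q : ℤ) := by
        have h3 : (g.norm : ℤ) * r ≤ l * r :=
          mul_le_mul_of_nonneg_right (by exact_mod_cast hgl) (Int.natCast_nonneg r)
        have h4 : (Q : ℤ) = R₁ + l * r + κ := by rw [hQR]; push_cast; ring
        rw [h4]
        linarith
      rw [abs_le] at h2
      have hj : (i + Q).toNat < 2 * Q + 1 := by omega
      have h7 : (((i + Q).toNat : ℕ) : ℤ) = i + Q := by omega
      have h8 := hy w ⟨x, hx, k, hat⟩ ⟨(i + Q).toNat, hj⟩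
      have h9 := hat ⟨(i + Q).toNat, hj⟩
      simp only [h7] at h8 h9
      have e1 : -(Q : ℤ) + (i + Q) = i := by ring
      rw [e1] at h8
      show x (i + (k + Q)) = (y w).1 i
      rw [h8, ← h9]
      congr 1
      ring
    have h2 : D.Q (y w).1 g p = p := hfix w hw p hq
    rw [h2, D.equi x (hYS hx)] at h1
    have e : p + (k + (Q : ℤ)) = q := by rw [hp]; ring
    rw [e] at h1
    linarith
  -- the commutator
  obtain ⟨p, q, hpq⟩ := JA.twist g g' hg1 hg'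
  obtain ⟨s, hs⟩ : ∃ s, s = FreeGroup.mk [p, q] * g' * (FreeGroup.mk [p, q])⁻¹ := ⟨_, rfl⟩
  rw [← hs] at hpq
  obtain ⟨h, hh⟩ : ∃ h, h = g * s * g⁻¹ * s⁻¹ := ⟨_, rfl⟩
  rw [← hh] at hpq
  have hsn : s.norm ≤ C := by
    have h1 : (FreeGroup.mk [p, q]).norm ≤ 2 := FreeGroup.norm_mk_le
    have h2 := FreeGroup.norm_mul_le (FreeGroup.mk [p, q] * g') (FreeGroup.mk [p, q])⁻¹
    have h3 := FreeGroup.norm_mul_le (FreeGroup.mk [p, q]) g'
    rw [FreeGroup.norm_inv_eq] at h2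
    rw [hs, hC]
    omega
  have hhn : h.norm ≤ 2 * l + 2 * C := by
    have h2 := FreeGroup.norm_mul_le (g * s * g⁻¹) s⁻¹
    have h3 := FreeGroup.norm_mul_le (g * s) g⁻¹
    have h4 := FreeGroup.norm_mul_le g s
    rw [FreeGroup.norm_inv_eq] at h2 h3
    rw [hh]
    omega
  have hbar : ∀ w ∈ W, ∀ x ∈ Y, ∀ k : ℤ, (∀ i : Fin (2 * Q + 1), x (k + ((i : ℕ) : ℤ)) = w i) →
      Bar (D.Q x) h (k + Q) := by
    intro w hw x hx k hat
    obtain ⟨c, hc⟩ : ∃ c, c = k + (Q : ℤ) := ⟨_, rfl⟩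
    have near' := near w hw x hx k hat
    rw [← hc] at near' ⊢
    have hR' : (R₁ : ℤ) = (2 * l + 2 * C) * r + C * r := by rw [hR]; push_cast; ring
    have hCr : (0 : ℤ) ≤ (C : ℤ) * r := by positivity
    have h0r : (0 : ℤ) ≤ (2 * (l : ℤ) + 2 * C) * r := by positivity
    have hfixh : ∀ z : ℤ, |z - c| ≤ (2 * (l : ℤ) + 2 * C) * r → D.Q x h z = z := by
      intro z hz
      have h1 := D.bd x (hYS hx) s⁻¹ z
      rw [FreeGroup.norm_inv_eq] at h1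
      have h2 : (s.norm : ℤ) * r ≤ C * r :=
        mul_le_mul_of_nonneg_right (by exact_mod_cast hsn) (Int.natCast_nonneg r)
      have h3 : D.Q x g (D.Q x s⁻¹ z) = D.Q x s⁻¹ z := by
        apply near'
        have h4 : |D.Q x s⁻¹ z - c| ≤ |D.Q x s⁻¹ z - z| + |z - c| := abs_sub_le _ _ _
        rw [hR']
        linarith
      have h4 : D.Q x g z = z := near' z (by rw [hR']; linarith)
      have h5 : D.Q x g⁻¹ (D.Q x s⁻¹ z) = D.Q x s⁻¹ z := by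
        rw [map_inv (D.Q x) g, Equiv.Perm.inv_eq_iff_eq]
        exact h3.symm
      rw [hh, map_mul, map_mul, map_mul, Equiv.Perm.mul_apply, Equiv.Perm.mul_apply,
        Equiv.Perm.mul_apply, h5, ← Equiv.Perm.mul_apply (D.Q x s), ← map_mul, mul_inv_cancel,
        map_one, Equiv.Perm.one_apply, h4]
    have hd : ∀ z : ℤ, |D.Q x h z - z| ≤ (2 * (l : ℤ) + 2 * C) * r := by
      intro z
      refine (D.bd x (hYS hx) h z).trans ?_
      exact mul_le_mul_of_nonneg_right (by exact_mod_cast hhn) (Int.natCast_nonneg r)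
    refine ⟨hfixh c (by rw [sub_self, abs_zero]; exact h0r), fun z hz => ?_, fun z hz => ?_⟩
    · by_cases hzc : |z - c| ≤ (2 * (l : ℤ) + 2 * C) * r
      · rw [hfixh z hzc]
        exact hz
      · push Not at hzc
        rw [abs_of_neg (by linarith)] at hzc
        have h1 := (abs_le.1 (hd z)).2
        linarith
    · by_cases hzc : |z - c| ≤ (2 * (l : ℤ) + 2 * C) * r
      · rw [hfixh z hzc]
        exact hz
      · push Not at hzc
        rw [abs_of_pos (by linarith)] at hzc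
        have h1 := (abs_le.1 (hd z)).1
        linarith
  -- a minimal subset without barriers
  have hCcl : Cl {x | x ∈ Y ∧ ∀ n : ℤ, ¬ Bar (D.Q x) h n} := by
    intro x hx
    have hxY : x ∈ Y := hYc x fun R => by
      obtain ⟨y, hy, h⟩ := hx R
      exact ⟨y, hy.1, h⟩
    refine ⟨hxY, fun n hn => ?_⟩
    obtain ⟨y, hy, h2⟩ := hx (n.natAbs + (2 * (h.norm * r) + κ))
    refine hy.2 n (D.bar_loc hSi h n (hYS hxY) (hYS hy.1) (fun i hi => (h2 i ?_).symm) hn)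
    push_cast
    exact hi
  have hCinv : Pool.Agent.E8helper53.FM.Inv {x | x ∈ Y ∧ ∀ n : ℤ, ¬ Bar (D.Q x) h n} := by
    intro k x hx
    refine ⟨hYi k x hx.1, fun n hn => hx.2 (n + k) ?_⟩
    rwa [D.bar_sh (hYS hx.1)] at hn
  obtain ⟨z, hz, hzn⟩ := exists_nobar D hSc hSi hYc hYi hYS hYf hpq
  obtain ⟨M, hM, hMm⟩ := exists_min hCcl hCinv ⟨z, hz, hzn⟩
  by_cases hsb : SameBlocks m M Y
  · obtain ⟨w, hw, x, hx, k, hk⟩ := hW M (fun x hx => (hM hx).1) hMm hsb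
    exact (hM hx).2 (k + Q) (hbar w hw x (hM hx).1 k hk)
  · apply hsb
    intro x hx y hy k
    have hne : Avoid Y (fun i : Fin m => y (k + (i : ℕ))) ≠ Y := by
      intro he
      have : y ∈ Avoid Y (fun i : Fin m => y (k + (i : ℕ))) := by rw [he]; exact hy
      exact this.2 k fun i => rfl
    have ht := hgt _ (Finset.mem_univ _) hne
    by_contra hcon
    push Not at hcon
    have hxA : x ∈ Avoid Y (fun i : Fin m => y (k + (i : ℕ))) := by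
      refine ⟨(hM hx).1, fun j hj => ?_⟩
      obtain ⟨i, hi, hne⟩ := hcon j
      exact hne (hj ⟨i, hi⟩)
    apply (hM hx).2 0
    have h1 : D.Q x h = 1 := by
      rw [hh, hs]
      simp only [map_mul, map_inv, ht x hxA]
      group
    rw [Bar, h1]
    exact ⟨rfl, fun y hy => hy, fun y hy => hy⟩


/-- laws at the scales `L d` -/
theorem laws (r : ℕ) : ∃ K : ℕ, 0 < K ∧ ∀ d : ℕ, ∃ l ≤ K * 4 ^ d,
    HasLaw (univAct r) l ((1 / 48) * (1 / 2 : ℝ) ^ (2 ^ d)) := by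
  obtain ⟨l₀, hl₀⟩ := core r (1 / 96) (by norm_num)
  refine ⟨l₀ + 3, by omega, fun d => ?_⟩
  have key : ∀ d : ℕ, ∃ l : ℕ, l + 3 ≤ (l₀ + 3) * 4 ^ d ∧
      HasLaw (univAct r) l ((1 / 48) * (1 / 2 : ℝ) ^ (2 ^ d)) := by
    intro d
    induction d with
    | zero =>
      refine ⟨l₀, by simp, ?_⟩
      have e : (1 / 48 : ℝ) * (1 / 2 : ℝ) ^ (2 ^ 0) = 1 / 96 := by norm_num
      rw [e]
      exact hl₀
    | succ d ih =>
      obtain ⟨l, hl, hlaw⟩ := ih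
      refine ⟨4 * l + 8, ?_, ?_⟩
      · rw [pow_succ]
        have : (l₀ + 3) * (4 ^ d * 4) = 4 * ((l₀ + 3) * 4 ^ d) := by ring
        rw [this]
        omega
      · have h1 := JB.law_step _ JA.twist l _ (by positivity) hlaw
        have e : (48 : ℝ) * ((1 / 48) * (1 / 2 : ℝ) ^ (2 ^ d)) ^ 2 =
            (1 / 48) * (1 / 2 : ℝ) ^ (2 ^ (d + 1)) := by
          rw [pow_succ 2 d, pow_mul]
          ring
        rw [e] at h1
        exact h1
  obtain ⟨l, hl, hlaw⟩ := key d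
  exact ⟨l, by omega, hlaw⟩

/-- the numerical part -/
theorem numeric (N : ℕ → ℕ) (hN : Monotone N) (T C₀ : ℕ) (hT : 0 < T)
    (h : ∀ d : ℕ, ∃ q ≤ 6 * T * 4 ^ d + C₀,
      1 ≤ ((N q * q : ℕ) : ℝ) * ((1 / 48) * (1 / 2 : ℝ) ^ (2 ^ d))) :
    ∃ n₀ : ℕ, ∀ n ≥ n₀, Real.log 2 / (12 * Real.sqrt T) * Real.sqrt n < Real.log (N n) := by
  have hT' : (0 : ℝ) < T := by exact_mod_cast hT
  have hl2 : 0 < Real.log 2 := Real.log_pos (by norm_num)
  obtain ⟨ε, hε⟩ : ∃ ε, ε = Real.log 2 / (12 * Real.sqrt T) := ⟨_, rfl⟩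
  have hs : 0 < Real.sqrt T := Real.sqrt_pos.2 hT'
  have hε0 : 0 < ε := by
    rw [hε]
    positivity
  rw [← hε]
  have hlog : ∀ᶠ n : ℕ in Filter.atTop, Real.log n ≤ ε / 2 * Real.sqrt n := by
    have h1 := (isLittleO_log_rpow_atTop (by norm_num : (0 : ℝ) < 1 / 2)).bound (half_pos hε0)
    have h2 := (tendsto_natCast_atTop_atTop (R := ℝ)).eventually h1
    filter_upwards [h2, Filter.eventually_ge_atTop 1] with n hn hn1
    have h3 : Real.log n ≤ ‖Real.log (n : ℝ)‖ := le_abs_self _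
    refine h3.trans (hn.trans (le_of_eq ?_))
    rw [Real.sqrt_eq_rpow, Real.norm_of_nonneg (Real.rpow_nonneg (Nat.cast_nonneg n) _)]
  obtain ⟨n₁, hn₁⟩ := Filter.eventually_atTop.1 hlog
  refine ⟨n₁ + 28 * T * (C₀ + 1) + 1, fun n hn => ?_⟩
  have hn28 : 28 * T * (C₀ + 1) ≤ n := by omega
  have hn7 : 7 * T ≤ n := by
    have : 7 * T * 1 ≤ 28 * T * (C₀ + 1) :=
      Nat.mul_le_mul (by omega) (by omega)
    omega
  -- the scale
  obtain ⟨d, hd1, hd2⟩ : ∃ d : ℕ, 7 * T * 4 ^ d ≤ n ∧ n < 7 * T * 4 ^ (d + 1) := by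
    have hex : ∃ d : ℕ, n < 7 * T * 4 ^ (d + 1) := by
      refine ⟨n, ?_⟩
      have h1 : n < 4 ^ n := Nat.lt_pow_self (by norm_num)
      have h2 : 4 ^ n ≤ 4 ^ (n + 1) := Nat.pow_le_pow_right (by norm_num) (by omega)
      calc n < 4 ^ (n + 1) := by omega
        _ = 1 * 4 ^ (n + 1) := (one_mul _).symm
        _ ≤ _ := Nat.mul_le_mul_right _ (by omega)
    refine ⟨Nat.find hex, ?_, Nat.find_spec hex⟩
    rcases Nat.eq_zero_or_pos (Nat.find hex) with h0 | h0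
    · rw [h0, pow_zero, mul_one]
      exact hn7
    · have := Nat.find_min hex (m := Nat.find hex - 1) (by omega)
      rw [Nat.sub_add_cancel h0] at this
      omega
  have hd3 : n < 28 * T * 4 ^ d := by
    have e : 7 * T * 4 ^ (d + 1) = 28 * T * 4 ^ d := by ring
    omega
  have hd4 : C₀ + 1 < 4 ^ d := by
    have h1 : 28 * T * (C₀ + 1) < 28 * T * 4 ^ d := by omega
    exact Nat.lt_of_mul_lt_mul_left h1
  obtain ⟨q, hq, h1⟩ := h d
  have hqn : q ≤ n := by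
    have h2 : 6 * T * 4 ^ d + 4 ^ d ≤ 7 * T * 4 ^ d := by
      have h3 : 1 * 4 ^ d ≤ T * 4 ^ d := Nat.mul_le_mul_right _ hT
      have e : 7 * T * 4 ^ d = 6 * T * 4 ^ d + T * 4 ^ d := by ring
      omega
    omega
  have hpos : 0 < ((N q * q : ℕ) : ℝ) := by
    by_contra hcon
    have h2 : ((N q * q : ℕ) : ℝ) = 0 := le_antisymm (not_lt.1 hcon) (Nat.cast_nonneg _)
    rw [h2, zero_mul] at h1
    linarith
  have hpos' : 0 < N q * q := by exact_mod_cast hpos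
  have hNq : 0 < N q := Nat.pos_of_mul_pos_right hpos'
  have hq0 : 0 < q := Nat.pos_of_mul_pos_left hpos'
  have h2 : (2 : ℝ) ^ (2 ^ d) ≤ ((N q * q : ℕ) : ℝ) := by
    have e : (1 / 2 : ℝ) ^ (2 ^ d) * 2 ^ (2 ^ d) = 1 := by
      rw [← mul_pow]
      norm_num
    have h3 : (0 : ℝ) < 2 ^ (2 ^ d) := by positivity
    calc (2 : ℝ) ^ (2 ^ d) = 1 * 2 ^ (2 ^ d) := (one_mul _).symm
      _ ≤ ((N q * q : ℕ) : ℝ) * ((1 / 48) * (1 / 2 : ℝ) ^ (2 ^ d)) * 2 ^ (2 ^ d) :=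
        mul_le_mul_of_nonneg_right h1 h3.le
      _ = ((N q * q : ℕ) : ℝ) * (1 / 48) * ((1 / 2 : ℝ) ^ (2 ^ d) * 2 ^ (2 ^ d)) := by ring
      _ = ((N q * q : ℕ) : ℝ) * (1 / 48) := by rw [e, mul_one]
      _ ≤ ((N q * q : ℕ) : ℝ) := by linarith
  have h3 := Real.log_le_log (by positivity) h2
  rw [Real.log_pow, Nat.cast_mul, Real.log_mul (by exact_mod_cast hNq.ne') (by exact_mod_cast hq0.ne')]
    at h3
  push_cast at h3
  have h4 : Real.log q ≤ Real.log n := Real.log_le_log (by exact_mod_cast hq0) (by exact_mod_cast hqn)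
  have h5 : Real.log (N q) ≤ Real.log (N n) :=
    Real.log_le_log (by exact_mod_cast hNq) (by exact_mod_cast hN hqn)
  have h6 := hn₁ n (by omega)
  have h7 : Real.sqrt n ≤ 6 * Real.sqrt T * 2 ^ d := by
    rw [Real.sqrt_le_iff]
    refine ⟨by positivity, ?_⟩
    have e : (6 * Real.sqrt T * 2 ^ d) ^ 2 = 36 * T * 4 ^ d := by
      rw [mul_pow, mul_pow, Real.sq_sqrt hT'.le, ← pow_mul, mul_comm d 2, pow_mul]
      norm_num
    rw [e]
    have h8 : (n : ℝ) ≤ 28 * T * 4 ^ d := by exact_mod_cast hd3.le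
    have h9 : (0 : ℝ) ≤ T * 4 ^ d := by positivity
    linarith
  have h8 : 2 * ε * Real.sqrt n ≤ 2 ^ d * Real.log 2 := by
    have e : 2 * ε * (6 * Real.sqrt T * 2 ^ d) = 2 ^ d * Real.log 2 := by
      rw [hε]
      field_simp
      ring
    rw [← e]
    exact mul_le_mul_of_nonneg_left h7 (by positivity)
  have h9 : 0 < ε * Real.sqrt n := by
    have : (0 : ℝ) < n := by
      have : 0 < n := by omega
      exact_mod_cast this
    positivity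
  linarith

/-- One constant for all `m`. -/
theorem few3 (D : LineAct A S r κ) (hSc : Cl S) (hSi : Pool.Agent.E8helper53.FM.Inv S) {Y : Set (ℤ → A)} (hYS : Y ⊆ S)
    (hYc : Cl Y) (hYi : Pool.Agent.E8helper53.FM.Inv Y) (hYf : ∀ g : F2, g ≠ 1 → ∃ x ∈ Y, D.Q x g 0 ≠ 0)
    (hprop : ∀ Z ⊆ Y, Cl Z → Pool.Agent.E8helper53.FM.Inv Z → Z ≠ Y → ∃ g : F2, g ≠ 1 ∧ D.Triv g Z) :
    ∃ ε : ℝ, 0 < ε ∧ ∀ m : ℕ, ∃ n₀ : ℕ, ∀ n ≥ n₀, ∀ W : Finset (Fin n → A), Meets m Y W →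
      ε * Real.sqrt n < Real.log W.card := by
  obtain ⟨K, hK, hlaws⟩ := laws r
  obtain ⟨T, hT⟩ : ∃ T, T = K * (r + 1) := ⟨_, rfl⟩
  have hT0 : 0 < T := by rw [hT]; positivity
  have hT' : (0 : ℝ) < T := by exact_mod_cast hT0
  have hl2 : 0 < Real.log 2 := Real.log_pos (by norm_num)
  refine ⟨Real.log 2 / (12 * Real.sqrt T), by positivity, fun m => ?_⟩
  obtain ⟨C₀, hC₀⟩ := few_core D hSc hSi hYS hYc hYi hYf hprop m
  obtain ⟨n₀, hn₀⟩ := numeric (hit m Y) (hit_mono m Y) T (2 * C₀ + 1) hT0 (fun d => by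
    obtain ⟨l, hl, hlaw⟩ := hlaws d
    refine ⟨2 * (l * (3 * r) + C₀) + 1, ?_, hC₀ l _ (by positivity) hlaw⟩
    have h1 : l * r ≤ (K * 4 ^ d) * (r + 1) := Nat.mul_le_mul hl (by omega)
    have e : 6 * T * 4 ^ d = 6 * ((K * 4 ^ d) * (r + 1)) := by rw [hT]; ring
    have e2 : 2 * (l * (3 * r) + C₀) + 1 = 6 * (l * r) + (2 * C₀ + 1) := by ring
    omega)
  refine ⟨n₀, fun n hn W hW => ?_⟩
  have h1 := hn₀ n hn
  have h2 : 0 < hit m Y n := by
    rcases Nat.eq_zero_or_pos (hit m Y n) with h0 | h0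
    · rw [h0, Nat.cast_zero, Real.log_zero] at h1
      have : 0 ≤ Real.log 2 / (12 * Real.sqrt T) * Real.sqrt n := by positivity
      linarith
    · exact h0
  exact h1.trans_le (Real.log_le_log (by exact_mod_cast h2) (by exact_mod_cast hit_le m Y n W hW))

/-- the minimal set over which the free group acts faithfully -/
theorem main3 (D : LineAct A S r κ) (hSc : Cl S) (hSi : Pool.Agent.E8helper53.FM.Inv S)
    (hf : ∀ g : F2, g ≠ 1 → ∃ x ∈ S, D.Q x g 0 ≠ 0)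
    (hB : ∃ G₀ : Finset F2, (∀ g ∈ G₀, g ≠ 1) ∧
      ∀ π : F2 →* Equiv.Perm ℤ, Disp r π → ∀ c : ℤ, ∃ g ∈ G₀, Bar π g c) :
    ∃ Y ⊆ S, IsLimit Y ∧ ∃ ε : ℝ, 0 < ε ∧ ∀ m : ℕ, ∃ n₀ : ℕ, ∀ n ≥ n₀,
      ∀ W : Finset (Fin n → A), Meets m Y W → ε * Real.sqrt n < Real.log W.card := by
  classical
  obtain ⟨Y, hYS, hYc, hYi, hY, hmin⟩ := zornT hSc {p | ∃ g : F2, g ≠ 1 ∧ p = fun x => D.Q x g 0 ≠ 0}
    (by rintro p ⟨g, hg, rfl⟩; exact D.move_LC g) hSc hSi le_rfl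
    (by rintro p ⟨g, hg, rfl⟩; exact hf g hg)
  have hfY : ∀ g : F2, g ≠ 1 → ∃ x ∈ Y, D.Q x g 0 ≠ 0 := fun g hg => hY _ ⟨g, hg, rfl⟩
  have hprop : ∀ Z ⊆ Y, Cl Z → Pool.Agent.E8helper53.FM.Inv Z → Z ≠ Y → ∃ g : F2, g ≠ 1 ∧ D.Triv g Z := by
    intro Z hZ hZc hZi hne
    by_contra hcon
    push Not at hcon
    apply hne
    refine hmin Z hZ hZc hZi ?_
    rintro p ⟨g, hg, rfl⟩
    by_contra hc
    push Not at hc
    exact hcon g hg (D.triv_of hZi (hZ.trans hYS) g hc)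
  have hnb : ∀ g : F2, g ≠ 1 → ∃ x ∈ Y, ∀ n : ℤ, ¬ Bar (D.Q x) g n := fun g hg =>
    exists_nobar D hSc hSi hYc hYi hYS hfY hg
  have hfew := few3 D hSc hSi hYS hYc hYi hfY hprop
  refine ⟨Y, hYS, ⟨hYc, hYi, ?_, ?_⟩, hfew⟩
  · obtain ⟨G₀, hG1, hG2⟩ := hB
    obtain ⟨x, hx, -⟩ := hfY (FreeGroup.of true) (FreeGroup.of_ne_one _)
    obtain ⟨g, hg, hb⟩ := hG2 (D.Q x) (D.disp x (hYS hx)) 0
    obtain ⟨z, hz, hzn⟩ := hnb g (hG1 g hg)
    refine ⟨{x | x ∈ Y ∧ ∀ n : ℤ, ¬ Bar (D.Q x) g n}, fun y hy => hy.1, ⟨z, hz, hzn⟩, ?_, ?_, ?_⟩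
    · intro x hx
      have hxY : x ∈ Y := hYc x fun R => by
        obtain ⟨y, hy, h⟩ := hx R
        exact ⟨y, hy.1, h⟩
      refine ⟨hxY, fun n hn => ?_⟩
      obtain ⟨y, hy, h⟩ := hx (n.natAbs + (2 * (g.norm * r) + κ))
      refine hy.2 n (D.bar_loc hSi g n (hYS hxY) (hYS hy.1) (fun i hi => (h i ?_).symm) hn)
      push_cast
      exact hi
    · intro k x hx
      refine ⟨hYi k x hx.1, fun n hn => hx.2 (n + k) ?_⟩
      rwa [D.bar_sh (hYS hx.1)] at hn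
    · intro he
      have : x ∈ {x | x ∈ Y ∧ ∀ n : ℤ, ¬ Bar (D.Q x) g n} := by rw [he]; exact hx
      exact this.2 0 hb
  · intro n
    by_contra hcon
    push Not at hcon
    obtain ⟨ε, hε, hfew'⟩ := hfew
    obtain ⟨n₀, hn₀⟩ := hfew' n
    have h1 := hn₀ n₀ le_rfl ∅ (fun M hM hMm hs => absurd hs (hcon M hM hMm))
    rw [Finset.card_empty, Nat.cast_zero, Real.log_zero] at h1
    have h2 : 0 ≤ ε * Real.sqrt n₀ := by positivity
    linarith


theorem structure3 {F : Set (List A)} (hF : ∀ a : A, [a, a] ∈ F) (hfree : HasFree (FullSF F)) :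
    ∃ Y ⊆ SF F, IsLimit Y ∧ ∃ ε : ℝ, 0 < ε ∧ ∀ m : ℕ, ∃ n₀ : ℕ, ∀ n ≥ n₀,
      ∀ W : Finset (Fin n → A), Meets m Y W → ε * Real.sqrt n < Real.log W.card := by
  obtain ⟨r, κ, D, hD⟩ := exists_act hF hfree
  have hS : Pool.Agent.E8helper53.FM.Inv (SF F) := fun k x hx => sh_mem k hx
  exact main3 D (cl_SF F) hS hD (JE.barriers r JK.card_pairs (fun ε hε => tail_final r ε hε))

end

end Pool.Agent.E8helper92.FM
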